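import Pool.Agent.Q37.WN.Glue

/-!
# Gluing infinitely many h-stratified derived categories along a closed point

`Bq A ε` is the bouquet of a family of augmented `k`-algebras `ε i : A i → k`: the ring of all
families `(aᵢ)` with a common augmentation `c` and `aᵢ = c` for all but finitely many `i`.
-/

open CategoryTheory Limits

namespace Pool.Agent.Results.MP_e18349_al.GluingNotWeaklyNoetherian

open Pool.Agent.Q37.WN

universe w

section defs

variable (R : Type) [CommRing R] [HasDerivedCategory.{w} (ModuleCat.{0} R)]

/-- An `R`-module, viewed as an object of `D(R)` concentrated in degree `0`. -/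
noncomputable def inDegreeZero (M : Type) [AddCommGroup M] [Module R M] :
    DerivedCategory (ModuleCat.{0} R) :=
  (DerivedCategory.singleFunctor (ModuleCat.{0} R) 0).obj (ModuleCat.of R M)

/-- The class of all residue fields `κ(𝔭)`, in degree `0`. -/
def residueFields : ObjectProperty (DerivedCategory (ModuleCat.{0} R)) :=
  fun X => ∃ p : PrimeSpectrum R, X = inDegreeZero R p.asIdeal.ResidueField

variable {R} in
/-- `Loc⟨S⟩`: the objects lying in every localizing subcategory that contains `S`. -/
def Loc (S : ObjectProperty (DerivedCategory (ModuleCat.{0} R))) :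
    ObjectProperty (DerivedCategory (ModuleCat.{0} R)) :=
  fun X => ∀ P : ObjectProperty (DerivedCategory (ModuleCat.{0} R)), IsLocalizing P → S ≤ P → P X

/-- The condition `R ∈ Loc⟨κ(𝔭) | 𝔭 ∈ Spec R⟩`, equivalent to `D(R)` being h-stratified. -/
def ResidueGenerated : Prop := Loc (residueFields R) (inDegreeZero R R)

variable {R}

lemma residueGenerated_iff : ResidueGenerated R ↔
    ∀ P : ObjectProperty (DerivedCategory (ModuleCat.{0} R)), IsLocalizing P →
      ContainsResidueFields P → Holds P R := by
  constructor
  · intro h P hP hc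
    refine h P hP ?_
    rintro _ ⟨q, rfl⟩
    exact hc q
  · intro h P hP hS
    exact h P hP (fun q => hS _ ⟨q, rfl⟩)

end defs

/-- **Gluing.** Let `ε i : A i → k` be augmented algebras over a field `k` such that every
`D(A i)` satisfies the residue field condition. If infinitely many of the closed points
`ker (ε i)` are not minimal primes, then `D` of the bouquet satisfies the condition as well, but
its spectrum is not weakly noetherian. The hypotheses hold for `A i = k⟦X⟧`. -/
theorem result :
    (∀ (k : Type) [Field k] (ι : Type) (A : ι → Type) [∀ i, CommRing (A i)]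
      [∀ i, Algebra k (A i)] (ε : ∀ i, A i →ₐ[k] k)
      [∀ i, HasDerivedCategory.{w} (ModuleCat.{0} (A i))]
      [HasDerivedCategory.{w} (ModuleCat.{0} (Bq A ε))],
      (∀ i, ResidueGenerated (A i)) →
      {i | ∃ q : Ideal (A i), q.IsPrime ∧ q < RingHom.ker (ε i)}.Infinite →
      ResidueGenerated (Bq A ε) ∧ ¬ WeaklyNoetherian (PrimeSpectrum (Bq A ε))) ∧
    (∀ (k : Type) [Field k] [HasDerivedCategory.{w} (ModuleCat.{0} (PowerSeries k))],
      ResidueGenerated (PowerSeries k)) ∧
    ∃ (R : Type) (_ : CommRing R),
      (∀ [HasDerivedCategory.{w} (ModuleCat.{0} R)], ResidueGenerated R) ∧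
        ¬ WeaklyNoetherian (PrimeSpectrum R) := by
  refine ⟨?_, ?_, ?_⟩
  · intro k _ ι A _ _ ε _ _ hA hq
    refine ⟨?_, not_weaklyNoetherian_bq hq⟩
    obtain ⟨i₀, -⟩ := hq.nonempty
    rw [residueGenerated_iff]
    intro P hP hc
    exact glue i₀ hP hc (fun i => residueGenerated_iff.1 (hA i))
  · intro k _ _
    rw [residueGenerated_iff]
    exact fun P hP hc => powerSeries_holds hP hc
  · exact ⟨BR ℚ, inferInstance, fun {_} => residueGenerated_iff.2 fun P hP hc =>
      BR.bouquet.holds hP hc, BR.bouquet.not_weaklyNoetherian⟩

end Pool.Agent.Results.MP_e18349_al.GluingNotWeaklyNoetherian
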